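import Pool.Agent.Y822.G.Stm
import Pool.Agent.Y822.CTu
import Pool.Agent.Y842.JC.Sieve

/-!
# The singular series of `k` shifts, uniformly in `k`

A translate of the set of shifts consists of natural numbers.
-/

set_option autoImplicit false

namespace Pool.Agent.Y108.GL

open Finset Filter Topology
open Pool.Agent.H373R2.T7 (pz Vz mem_pz)
open Pool.Agent.H387R2.Uni (nuT Adm locT CT CT_hasProd)
open Pool.Agent.Y822 (PT PT_nonneg PT_low CT_tail CT_up Vz_sharp)
open Pool.Agent.Y822.G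

/-- the translate -/
def Tm (H : Finset ℤ) (M : ℕ) : Finset ℕ := H.image (fun h : ℤ => (h + (M : ℤ)).toNat)

lemma Tm_card {H : Finset ℤ} {M : ℕ} (hM : ∀ h ∈ H, |h| ≤ M) : (Tm H M).card = H.card := by
  unfold Tm
  apply card_image_of_injOn
  intro a ha b hb hab
  have h1 := abs_le.1 (hM a ha)
  have h2 := abs_le.1 (hM b hb)
  simp only at hab
  omega

lemma Tm_le {H : Finset ℤ} {M : ℕ} (hM : ∀ h ∈ H, |h| ≤ M) : ∀ t ∈ Tm H M, t ≤ 2 * M := by
  intro t ht
  unfold Tm at ht
  rw [mem_image] at ht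
  obtain ⟨h, hh, rfl⟩ := ht
  have h1 := abs_le.1 (hM h hh)
  omega

lemma rho_eq {H : Finset ℤ} {M p : ℕ} (hM : ∀ h ∈ H, |h| ≤ M) (hp : 0 < p) :
    rho (QR RS H) p = nuT (Tm H M) p := by
  classical
  have : NeZero p := ⟨hp.ne'⟩
  have e1 : rho (QR RS H) p = (H.image (fun h : ℤ => (h : ZMod p))).card := by
    unfold rho
    have h1 : (((range p).filter (fun r => QR RS H p r)).image
        (fun r : ℕ => -(r : ZMod p))) = H.image (fun h : ℤ => (h : ZMod p)) := by
      ext c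
      simp only [mem_image, mem_filter, mem_range, QR, RS]
      constructor
      · rintro ⟨r, ⟨-, a, ha, hd⟩, rfl⟩
        refine ⟨a, ha, ?_⟩
        have h2 := (ZMod.intCast_zmod_eq_zero_iff_dvd ((r : ℤ) + a) p).2 hd
        push_cast at h2
        linear_combination h2
      · rintro ⟨a, ha, rfl⟩
        refine ⟨(-(a : ZMod p)).val, ⟨ZMod.val_lt _, a, ha, ?_⟩, ?_⟩
        · rw [← ZMod.intCast_zmod_eq_zero_iff_dvd]
          push_cast
          rw [ZMod.natCast_val, ZMod.cast_id]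
          ring
        · rw [ZMod.natCast_val, ZMod.cast_id, neg_neg]
    rw [← h1]
    symm
    apply card_image_of_injOn
    intro a ha b hb hab
    simp only [coe_filter, mem_range, Set.mem_ofPred_eq] at ha hb
    have h2 : (a : ZMod p) = b := neg_injective hab
    rw [ZMod.natCast_eq_natCast_iff'] at h2
    rwa [Nat.mod_eq_of_lt ha.1, Nat.mod_eq_of_lt hb.1] at h2
  have e2 : nuT (Tm H M) p = (H.image (fun h : ℤ => (h : ZMod p))).card := by
    unfold nuT
    have h1 : (((Tm H M).image (· % p)).image (fun r : ℕ => (r : ZMod p) - (M : ZMod p))) =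
        H.image (fun h : ℤ => (h : ZMod p)) := by
      unfold Tm
      rw [image_image, image_image]
      apply image_congr
      intro h hh
      have h3 := abs_le.1 (hM h hh)
      have h2 : (((h + M).toNat : ℕ) : ℤ) = h + M := Int.toNat_of_nonneg (by omega)
      simp only [Function.comp, ZMod.natCast_mod]
      have h4 : (((h + M).toNat : ℕ) : ZMod p) = ((h + M : ℤ) : ZMod p) := by
        rw [← h2]; push_cast; rfl
      rw [h4]
      push_cast
      ring
    rw [← h1]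
    symm
    apply card_image_of_injOn
    intro a ha b hb hab
    simp only [coe_image, Set.mem_image] at ha hb
    obtain ⟨a', -, rfl⟩ := ha
    obtain ⟨b', -, rfl⟩ := hb
    have h2 : ((a' % p : ℕ) : ZMod p) = ((b' % p : ℕ) : ZMod p) := by
      have := hab
      simp only at this
      linear_combination this
    rw [ZMod.natCast_eq_natCast_iff'] at h2
    rwa [Nat.mod_mod, Nat.mod_mod] at h2
  rw [e1, e2]

lemma lS_eq {H : Finset ℤ} {M p : ℕ} (hM : ∀ h ∈ H, |h| ≤ M) (hp : 0 < p) :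
    lS H p = locT (Tm H M) p := by
  unfold lS locT
  rw [rho_eq hM hp, Tm_card hM]

lemma SS_eq {H : Finset ℤ} {M : ℕ} (hM : ∀ h ∈ H, |h| ≤ M) : SS H = CT (Tm H M) := by
  unfold SS CT
  exact tprod_congr fun p => lS_eq hM p.2.pos

lemma VV_eq {H : Finset ℤ} {M : ℕ} (hM : ∀ h ∈ H, |h| ≤ M) (z : ℕ) :
    VV (QR RS H) z = PT (Tm H M) z * Vz z ^ H.card := by
  unfold VV PT Vz
  rw [← prod_pow, ← prod_mul_distrib]
  apply prod_congr rfl
  intro p hp
  have hpr : p.Prime := (mem_filter.1 hp).2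
  have hp2 : (2 : ℝ) ≤ p := by exact_mod_cast hpr.two_le
  have h1 : (1 : ℝ) / p ≤ 1 / 2 := one_div_le_one_div_of_le (by norm_num) hp2
  have h2 : (1 - 1 / (p : ℝ)) ^ H.card ≠ 0 := (pow_pos (by linarith) _).ne'
  unfold locT
  rw [rho_eq hM hpr.pos, Tm_card hM, div_mul_cancel₀ _ h2]

/-- growth facts -/
lemma growth (δ A : ℝ) (hδ : 0 < δ) : ∀ᶠ N : ℕ in atTop,
    A * Real.log N ^ 2 + 3 ≤ (⌊(N : ℝ) ^ δ⌋₊ : ℝ) ∧
      δ / 2 * Real.log N ≤ Real.log (⌊(N : ℝ) ^ δ⌋₊ : ℝ) := by
  have h1 : Tendsto (fun N : ℕ => (N : ℝ)) atTop atTop := tendsto_natCast_atTop_atTop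
  have h2 : (fun x : ℝ => Real.log x ^ (2 : ℝ)) =o[atTop] fun x => x ^ δ :=
    isLittleO_log_rpow_rpow_atTop 2 hδ
  have h3 := (h2.comp_tendsto h1).def (show (0 : ℝ) < 1 / (2 * (|A| + 1)) by positivity)
  have h4 : Tendsto (fun N : ℕ => (N : ℝ) ^ δ) atTop atTop := (tendsto_rpow_atTop hδ).comp h1
  have h5 : ∀ᶠ N : ℕ in atTop, (8 : ℝ) ≤ (N : ℝ) ^ δ := h4.eventually_ge_atTop 8
  have h6 : Tendsto (fun N : ℕ => (N : ℝ) ^ (δ / 2)) atTop atTop :=
    (tendsto_rpow_atTop (by positivity)).comp h1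
  filter_upwards [h3, h5, h6.eventually_ge_atTop 2, eventually_ge_atTop 1] with N g1 g2 g3 g4
  have hN : (1 : ℝ) ≤ N := by exact_mod_cast g4
  have hl : 0 ≤ Real.log N := Real.log_nonneg hN
  have hfl : (N : ℝ) ^ δ - 1 < (⌊(N : ℝ) ^ δ⌋₊ : ℝ) := Nat.sub_one_lt_floor _
  simp only [Function.comp, Real.rpow_two, Real.norm_eq_abs] at g1
  rw [abs_of_nonneg (by positivity : 0 ≤ Real.log (N : ℝ) ^ 2),
    abs_of_nonneg (by linarith : 0 ≤ (N : ℝ) ^ δ)] at g1
  constructor
  · have h7 : A * Real.log N ^ 2 ≤ (|A| + 1) * Real.log N ^ 2 :=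
      mul_le_mul_of_nonneg_right (by linarith [le_abs_self A]) (by positivity)
    have h8 : (|A| + 1) * Real.log N ^ 2 ≤ (|A| + 1) * (1 / (2 * (|A| + 1)) * (N : ℝ) ^ δ) :=
      mul_le_mul_of_nonneg_left g1 (by positivity)
    have h9 : (|A| + 1) * (1 / (2 * (|A| + 1)) * (N : ℝ) ^ δ) = (N : ℝ) ^ δ / 2 := by
      field_simp
    linarith
  · have h7 : (N : ℝ) ^ (δ / 2) ≤ (⌊(N : ℝ) ^ δ⌋₊ : ℝ) := by
      have h8 : (N : ℝ) ^ δ = (N : ℝ) ^ (δ / 2) * (N : ℝ) ^ (δ / 2) := by
        rw [← Real.rpow_add (by linarith)]; congr 1; ring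
      nlinarith
    have h8 := Real.log_le_log (by positivity) h7
    rwa [Real.log_rpow (by linarith)] at h8

/-- **SING** -/
theorem sing : SingStm := by
  intro δ C hδ hδ1
  obtain ⟨a, ha, hlow⟩ := Vz_sharp
  obtain ⟨b, hb, hup⟩ := Pool.Agent.Y842.JC.Vz_up
  refine ⟨Real.exp (-1) * a / δ, 4 * b / δ, by positivity, by positivity, ?_⟩
  obtain ⟨N₀, hN₀⟩ := eventually_atTop.1 (growth δ (4 * (C + 1) / δ + 2) hδ)
  refine ⟨max N₀ 3, fun N hN H hH1 hHk hHN hadm => ?_⟩
  have hNN : N₀ ≤ N := (le_max_left _ _).trans hN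
  have hN3 : 3 ≤ N := (le_max_right _ _).trans hN
  obtain ⟨g1, g2⟩ := hN₀ N hNN
  set k := H.card with hk
  set M := N ^ C with hM0
  have hM : ∀ h ∈ H, |h| ≤ (M : ℤ) := by
    intro h hh
    rw [hM0]
    push_cast
    exact hHN h hh
  set T := Tm H M with hT
  have hTk : T.card = k := Tm_card hM
  have hN3r : (3 : ℝ) ≤ N := by exact_mod_cast hN3
  have hlog : 1 < Real.log N := by
    rw [Real.lt_log_iff_exp_lt (by linarith)]
    linarith [Real.exp_one_lt_d9]
  have hk1 : (1 : ℝ) ≤ k := by exact_mod_cast hH1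
  have hAdm : Adm T := by
    intro p hp
    rw [← rho_eq hM hp.pos]
    exact hadm p hp
  have hCTpos : 0 < CT T := by
    obtain ⟨c, hc, h⟩ := PT_low (k - 1)
    exact lt_of_lt_of_le hc (h T (by rw [hTk]; omega) hAdm).2
  have hSS := SS_eq hM
  rw [← hT] at hSS
  refine ⟨?_, by rw [hSS]; exact hCTpos, ?_⟩
  · rw [hSS]
    have := CT_hasProd T
    convert this using 2 with p
    exact lS_eq hM p.2.pos
  intro z hz
  rw [← hz] at g1 g2
  have hA : 0 ≤ 4 * (C + 1 : ℝ) / δ := by positivity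
  have hz3 : (3 : ℝ) ≤ z := by
    have : 0 ≤ (4 * (C + 1 : ℝ) / δ + 2) * Real.log N ^ 2 := by positivity
    linarith
  have hz3' : 3 ≤ z := by exact_mod_cast hz3
  have hlz : 0 < Real.log z := Real.log_pos (by linarith)
  have hlz2 : Real.log z ≤ δ * Real.log N := by
    have h1 : (z : ℝ) ≤ (N : ℝ) ^ δ := by
      rw [hz]; exact Nat.floor_le (by positivity)
    have h2 := Real.log_le_log (by linarith) h1
    rwa [Real.log_rpow (by linarith)] at h2
  have hL2 : Real.log N ≤ Real.log N ^ 2 := by nlinarith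
  -- the two comparisons of the truncated product
  have hz2 : 2 * (k : ℝ) ^ 2 ≤ z := by nlinarith
  have hPT1 : PT T z ≤ 2 * CT T := by
    have h := CT_tail T z (by omega) (by
      rw [hTk]
      have : (k : ℝ) ^ 2 ≤ z := by nlinarith
      exact_mod_cast this)
    rw [hTk] at h
    have h2 : (k : ℝ) ^ 2 / z ≤ 1 / 2 := by
      rw [div_le_iff₀ (by linarith)]; linarith
    have h3 := PT_nonneg T z
    nlinarith
  have hPT2 : Real.exp (-1) * CT T ≤ PT T z := by
    have h := CT_up T (2 * M) z (Tm_le hM) (by omega)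
    rw [hTk] at h
    have h3 : (Nat.log z (2 * M) : ℝ) ≤ 2 * (C + 1) / δ := by
      have hM1 : 2 * M ≠ 0 := by positivity
      have h4 : (z : ℝ) ^ Nat.log z (2 * M) ≤ 2 * M := by
        exact_mod_cast Nat.pow_log_le_self z hM1
      have h5 : (2 * M : ℝ) ≤ (N : ℝ) ^ (C + 1) := by
        rw [hM0, pow_succ]
        push_cast
        nlinarith [pow_pos (show (0 : ℝ) < N by linarith) C]
      have h6 := Real.log_le_log (by positivity) (h4.trans h5)
      rw [Real.log_pow, Real.log_pow] at h6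
      push_cast at h6
      rw [le_div_iff₀ hδ]
      have h7 : (Nat.log z (2 * M) : ℝ) * (δ / 2 * Real.log N) ≤ (C + 1) * Real.log N :=
        (mul_le_mul_of_nonneg_left g2 (Nat.cast_nonneg _)).trans h6
      have h8 : (Nat.log z (2 * M) : ℝ) * (δ / 2) ≤ C + 1 := by
        refine le_of_mul_le_mul_right ?_ (show 0 < Real.log N by linarith)
        linarith
      linarith
    have h9 : 2 * (k : ℝ) ^ 3 * Nat.log z (2 * M) / z ≤ 1 := by
      rw [div_le_one (by linarith)]
      have h10 : (k : ℝ) ^ 3 ≤ Real.log N ^ 2 := by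
        have : (k : ℝ) ≤ (k : ℝ) ^ 2 := by nlinarith
        calc (k : ℝ) ^ 3 = (k : ℝ) ^ 2 * k := by ring
          _ ≤ Real.log N * Real.log N := by
              apply mul_le_mul hHk (by linarith) (by positivity) (by linarith)
          _ = _ := by ring
      calc 2 * (k : ℝ) ^ 3 * Nat.log z (2 * M) ≤ 2 * Real.log N ^ 2 * (2 * (C + 1) / δ) := by
            gcongr
        _ = (4 * (C + 1) / δ) * Real.log N ^ 2 := by ring
        _ ≤ z := by nlinarith
    have h11 : CT T ≤ Real.exp 1 * PT T z :=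
      h.trans (mul_le_mul_of_nonneg_right (Real.exp_le_exp.2 h9) (PT_nonneg T z))
    calc Real.exp (-1) * CT T ≤ Real.exp (-1) * (Real.exp 1 * PT T z) :=
          mul_le_mul_of_nonneg_left h11 (Real.exp_pos _).le
      _ = PT T z := by
          rw [← mul_assoc, ← Real.exp_add]; norm_num
  rw [VV_eq hM z, ← hT, hSS]
  have hV1 := hlow z hz3'
  have hV2 := hup z hz3'
  have hL0 : 0 < Real.log N := by linarith
  have hlow2 : a / (δ * Real.log N) ≤ Vz z := (div_le_div_of_nonneg_left ha.le hlz hlz2).trans hV1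
  have hup2 : Vz z ≤ 2 * b / (δ * Real.log N) := by
    refine hV2.trans ?_
    rw [div_le_div_iff₀ hlz (by positivity)]
    have := mul_le_mul_of_nonneg_left g2 hb.le
    nlinarith
  have hVpos : 0 < Vz z := lt_of_lt_of_le (by positivity) hlow2
  constructor
  · have h1 : (a / (δ * Real.log N)) ^ k ≤ Vz z ^ k := pow_le_pow_left₀ (by positivity) hlow2 k
    have h2 : Real.exp (-1) ^ k ≤ Real.exp (-1) := by
      apply pow_le_of_le_one (Real.exp_pos _).le _ (by omega)
      rw [Real.exp_le_one_iff]; norm_num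
    calc (Real.exp (-1) * a / δ) ^ k * (CT T / Real.log N ^ k)
        = Real.exp (-1) ^ k * CT T * (a / (δ * Real.log N)) ^ k := by
          rw [div_pow, div_pow, mul_pow, mul_pow]
          field_simp
      _ ≤ Real.exp (-1) * CT T * Vz z ^ k := by gcongr
      _ ≤ PT T z * Vz z ^ k := by gcongr
  · have h1 : Vz z ^ k ≤ (2 * b / (δ * Real.log N)) ^ k := pow_le_pow_left₀ hVpos.le hup2 k
    have h2 : (2 : ℝ) ≤ 2 ^ k := by
      calc (2 : ℝ) = 2 ^ 1 := by norm_num
        _ ≤ 2 ^ k := pow_le_pow_right₀ (by norm_num) hH1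
    calc PT T z * Vz z ^ k ≤ (2 * CT T) * (2 * b / (δ * Real.log N)) ^ k :=
          mul_le_mul hPT1 h1 (by positivity) (by positivity)
      _ ≤ (2 ^ k * CT T) * (2 * b / (δ * Real.log N)) ^ k := by gcongr
      _ = (4 * b / δ) ^ k * (CT T / Real.log N ^ k) := by
          rw [show (4 : ℝ) * b / δ = 2 * (2 * b) / δ by ring, div_pow, div_pow, mul_pow δ,
            mul_pow 2 (2 * b)]
          field_simp

end Pool.Agent.Y108.GL
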